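import Pool.Agent.W314.BA.Stm

/-! MP_f2742c_an: the weak type maximal inequality. -/

set_option autoImplicit false

open MeasureTheory Set Filter Topology Real
open scoped ENNReal NNReal

namespace Pool.Agent.W585.BA

open Pool.Agent.W314.BA

theorem main (h1 : DomXStmt) (h2 : MaxStmt) (h3 : KnAvStmt) : WeakStmt := by
  intro Y _ _ μ c hS
  obtain ⟨C1, hC1, H1⟩ := h1 Y μ c hS
  obtain ⟨C2, hC2, H2⟩ := h2
  obtain ⟨C3, hC3, H3⟩ := h3
  haveI := hS.prob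
  haveI : IsProbabilityMeasure tm := by unfold tm; infer_instance
  obtain ⟨K, hK⟩ : ∃ K : ℝ≥0∞, K = C1 * C3 + 1 := ⟨_, rfl⟩
  have hK0 : K ≠ 0 := by rw [hK]; simp
  have hKt : K ≠ ⊤ := by
    rw [hK]
    exact ENNReal.add_ne_top.2 ⟨ENNReal.mul_ne_top hC1 hC3, ENNReal.one_ne_top⟩
  refine ⟨C2 * K, ENNReal.mul_ne_top hC2 hKt, ?_⟩
  intro α f hf l hl0 hlt
  have hl'0 : l / K ≠ 0 := by
    rw [ne_eq, ENNReal.div_eq_zero_iff]
    push Not
    exact ⟨hl0, hKt⟩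
  have hl't : l / K ≠ ⊤ := ENNReal.div_ne_top hlt hK0
  have hΦ : Measurable (fun z : T => ∫⁻ y', f (y', z) ∂μ) := hf.lintegral_prod_left'
  have hE := H2 α (fun z : T => ∫⁻ y', f (y', z) ∂μ) hΦ (l / K) hl'0 hl't
  have hsub : {p : Y × T | ∃ x : ℝ, 2 ≤ x ∧
      l < ∫⁻ g, f (g • p.1, p.2 + c g p.1 • α) ∂(bm x)} ⊆
      (univ : Set Y) ×ˢ {z : T | ∃ N : ℕ, l / K * (2 * N + 1) <
        ∑ n ∈ Finset.Icc (-(N : ℤ)) N, ∫⁻ y', f (y', z + n • α) ∂μ} := by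
    rintro ⟨y, z⟩ ⟨x, hx, hlx⟩
    refine ⟨mem_univ _, ?_⟩
    by_contra hcon
    simp only [mem_setOf_eq, not_exists, not_lt] at hcon
    have e1 := H3 (fun n : ℤ => ∫⁻ y', f (y', z + n • α) ∂μ) (l / K) hcon x hx
    have e2 := H1 α f hf x hx y z
    have e3 : l < l := by
      calc l < ∫⁻ g, f (g • y, z + c g y • α) ∂(bm x) := hlx
        _ ≤ C1 * ∑' n : ℤ, kn x n * ∫⁻ y', f (y', z + n • α) ∂μ := e2
        _ ≤ C1 * (C3 * (l / K)) := by gcongr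
        _ = (C1 * C3) * (l / K) := by rw [mul_assoc]
        _ ≤ K * (l / K) := by
            gcongr
            rw [hK]
            exact le_self_add
        _ = l := ENNReal.mul_div_cancel hK0 hKt
    exact lt_irrefl _ e3
  calc (μ.prod tm) {p : Y × T | ∃ x : ℝ, 2 ≤ x ∧
      l < ∫⁻ g, f (g • p.1, p.2 + c g p.1 • α) ∂(bm x)}
      ≤ (μ.prod tm) ((univ : Set Y) ×ˢ {z : T | ∃ N : ℕ, l / K * (2 * N + 1) <
        ∑ n ∈ Finset.Icc (-(N : ℤ)) N, ∫⁻ y', f (y', z + n • α) ∂μ}) := measure_mono hsub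
    _ = tm {z : T | ∃ N : ℕ, l / K * (2 * N + 1) <
        ∑ n ∈ Finset.Icc (-(N : ℤ)) N, ∫⁻ y', f (y', z + n • α) ∂μ} := by
        rw [Measure.prod_prod, measure_univ, one_mul]
    _ ≤ C2 * (∫⁻ z, ∫⁻ y', f (y', z) ∂μ ∂tm) / (l / K) := hE
    _ = C2 * K * (∫⁻ p, f p ∂(μ.prod tm)) / l := by
        rw [← lintegral_prod_symm f hf.aemeasurable, div_eq_mul_inv,
          ENNReal.inv_div (Or.inl hKt) (Or.inl hK0), div_eq_mul_inv, div_eq_mul_inv]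
        ring

end Pool.Agent.W585.BA

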